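import Pool.Agent.U66.UP.Ap
import Pool.Agent.Results.MP_ccf8bc_lc.SetSpectra

set_option autoImplicit false

/-!
# MP_ccf8bc_lc: the amalgamation spectrum above a measurable cardinal

If `χ` is a measurable cardinal above a Löwenheim-Skolem bound of the abstract elementary class
`K`, then amalgamation in `lam ≥ ν ≥ χ` implies amalgamation in `ν`. Hence `K` has amalgamation in
all cardinals `≥ χ` or fails it in all sufficiently large cardinals. If there is a proper class of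
measurable cardinals, the realisable pairs `(X, Y)` are exactly those with `X` or `Y` a set and all
members of `Y` infinite.
-/

namespace Pool.Agent.Results.MP_ccf8bc_lc.MeasurableSpectrum

open Cardinal FirstOrder
open Pool.Agent.U66.UP (Measurable ap_down)
open Pool.Agent.Results.MP_ccf8bc_lc.SetSpectra (AEC)

universe u

/-- `κ` witnesses the downward Löwenheim-Skolem property of `K`; `LS(K)` is the least such `κ`. -/
def LSat {L : FirstOrder.Language.{u, u}} (K : AEC L) (κ : Cardinal.{u}) : Prop :=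
  ℵ₀ ≤ κ ∧ L.card ≤ κ ∧ ∀ (N : Type u) [L.Structure N], K.mem N →
    ∀ X : Set N, ∃ A : L.Substructure N, X ⊆ A ∧ K.emb A.subtype ∧ #A ≤ #X + κ

/-- the same class -/
def conv {L : FirstOrder.Language.{u, u}} (K : AEC L) : Pool.Agent.H288R4.LS.AEC L where
  mem := K.mem
  emb := K.emb
  emb_mem := K.emb_mem
  emb_equiv := K.emb_equiv
  emb_comp := K.emb_comp
  coherence := K.coherence
  chain_union := K.chain_union
  chain_bound := K.chain_bound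
  ls := K.ls

theorem conv_AP {L : FirstOrder.Language.{u, u}} (K : AEC L) (lam : Cardinal.{u}) :
    Pool.Agent.U66.UP.AP (conv K) lam ↔ K.AP lam := by
  constructor
  · intro h M₀ M₁ M₂ _ _ _ f₁ f₂ c0 c1 c2 h1 h2
    obtain ⟨N, iN, g₁, g₂, h0, h3, h4, h5⟩ := h M₀ M₁ M₂ f₁ f₂ h1 h2 c0 c1 c2
    exact ⟨N, iN, g₁, g₂, h0, h3, h4, by ext x; exact h5 x⟩
  · intro h M₀ M₁ M₂ _ _ _ f₁ f₂ h1 h2 c0 c1 c2
    obtain ⟨N, iN, g₁, g₂, h0, h3, h4, h5⟩ := h M₀ M₁ M₂ f₁ f₂ c0 c1 c2 h1 h2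
    exact ⟨N, iN, g₁, g₂, h0, h3, h4, fun x => DFunLike.congr_fun h5 x⟩

theorem down {χ : Cardinal.{u}} (hχ : Measurable χ) {L : FirstOrder.Language.{u, u}} {K : AEC L}
    {κ : Cardinal.{u}} (hκ : LSat K κ) (hlt : κ < χ) {ν lam : Cardinal.{u}} (h1 : χ ≤ ν)
    (h2 : ν ≤ lam) (h : K.AP lam) : K.AP ν :=
  (conv_AP K ν).1 (ap_down (K := conv K) hκ hχ hlt h1 h2 ((conv_AP K lam).2 h))

theorem result :
    (∀ χ : Cardinal.{u}, Measurable χ → ∀ (L : FirstOrder.Language.{u, u}) (K : AEC L)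
      (κ : Cardinal.{u}), LSat K κ → κ < χ →
        (∀ ν lam : Cardinal.{u}, χ ≤ ν → ν ≤ lam → K.AP lam → K.AP ν) ∧
        ((∀ ν : Cardinal.{u}, χ ≤ ν → K.AP ν) ∨
          ∃ μ : Cardinal.{u}, ∀ lam : Cardinal.{u}, μ ≤ lam → ¬ K.AP lam)) ∧
    ((∀ κ : Cardinal.{u}, ∃ χ : Cardinal.{u}, κ < χ ∧ Measurable χ) →
      ∀ X Y : Set Cardinal.{u}, Disjoint X Y →
        ((∃ (L : FirstOrder.Language.{u, u}) (K : AEC L),
          (∀ ν ∈ X, K.AP ν) ∧ (∀ μ ∈ Y, ¬ K.AP μ)) ↔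
        ((BddAbove X ∨ BddAbove Y) ∧ ∀ μ ∈ Y, ℵ₀ ≤ μ))) := by
  have h1 : ∀ χ : Cardinal.{u}, Measurable χ → ∀ (L : FirstOrder.Language.{u, u}) (K : AEC L)
      (κ : Cardinal.{u}), LSat K κ → κ < χ →
        (∀ ν lam : Cardinal.{u}, χ ≤ ν → ν ≤ lam → K.AP lam → K.AP ν) ∧
        ((∀ ν : Cardinal.{u}, χ ≤ ν → K.AP ν) ∨
          ∃ μ : Cardinal.{u}, ∀ lam : Cardinal.{u}, μ ≤ lam → ¬ K.AP lam) := by
    intro χ hχ L K κ hκ hlt
    have h : ∀ ν lam : Cardinal.{u}, χ ≤ ν → ν ≤ lam → K.AP lam → K.AP ν :=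
      fun ν lam h1 h2 h3 => down hχ hκ hlt h1 h2 h3
    refine ⟨h, ?_⟩
    by_cases ha : ∀ ν : Cardinal.{u}, χ ≤ ν → K.AP ν
    · exact Or.inl ha
    · push Not at ha
      obtain ⟨ν, hν, hn⟩ := ha
      exact Or.inr ⟨ν, fun lam hl hlam => hn (h ν lam hν hl hlam)⟩
  refine ⟨h1, fun hm X Y hXY => ⟨?_, ?_⟩⟩
  · rintro ⟨L, K, hX, hY⟩
    refine ⟨?_, fun μ hμ => ?_⟩
    · obtain ⟨κ, hκ⟩ := K.ls
      obtain ⟨χ, hlt, hχ⟩ := hm κ
      rcases (h1 χ hχ L K κ hκ hlt).2 with h | ⟨μ, h⟩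
      · right
        refine ⟨χ, fun ν hν => ?_⟩
        by_contra hn
        exact hY ν hν (h ν (not_le.1 hn).le)
      · left
        refine ⟨μ, fun ν hν => ?_⟩
        by_contra hn
        exact h ν (not_le.1 hn).le (hX ν hν)
    · by_contra hlt
      exact hY μ hμ (SetSpectra.AP_finite K μ (not_le.1 hlt))
  · rintro ⟨hset, hY⟩
    obtain ⟨L, K, -, h2, h3⟩ := (SetSpectra.result X Y hXY hset).2 hY
    exact ⟨L, K, h2, h3⟩

end Pool.Agent.Results.MP_ccf8bc_lc.MeasurableSpectrum
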